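import Mathlib

/-!
Valuations of the terms of `S_n = sum_{k < n} (280 k + 19) M_k 1584^(2 (n - 1 - k))` and of
`D_n = 2 n (2 n + 1) C(2 n, n)` at the primes `2`, `3`, `11` of `1584`.
-/

namespace Pool.Agent.Lib.MP_5b47ee_nt

open Nat

/-- `M_k = (4k)! / (k!)^4` as a natural number -/
def Mn (k : ℕ) : ℕ := (4 * k).choose (2 * k) * (2 * k).choose k * (2 * k).choose k

/-- the denominator -/
def Dn (n : ℕ) : ℕ := 2 * n * (2 * n + 1) * (2 * n).choose n

/-- the numerator -/
def Sn (n : ℕ) : ℕ := ∑ k ∈ Finset.range n, (280 * k + 19) * Mn k * 1584 ^ (2 * (n - 1 - k))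

theorem Mn_mul (k : ℕ) : Mn k * (k ! * k ! * (k ! * k !)) = (4 * k)! := by
  have h1 := Nat.choose_mul_factorial_mul_factorial (n := 4 * k) (k := 2 * k) (by omega)
  have h2 := Nat.choose_mul_factorial_mul_factorial (n := 2 * k) (k := k) (by omega)
  rw [show 4 * k - 2 * k = 2 * k by omega] at h1
  rw [show 2 * k - k = k by omega] at h2
  calc Mn k * (k ! * k ! * (k ! * k !)) = (4 * k).choose (2 * k) *
        ((2 * k).choose k * k ! * k !) * ((2 * k).choose k * k ! * k !) := by
        rw [Mn]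
        ring
    _ = (4 * k)! := by rw [h2, h1]

theorem Dn_mul (m : ℕ) : Dn (m + 1) * (m ! * (m + 1)!) = 2 * (2 * m + 3)! := by
  have h2 := Nat.choose_mul_factorial_mul_factorial (n := 2 * (m + 1)) (k := m + 1) (by omega)
  rw [show 2 * (m + 1) - (m + 1) = m + 1 by omega] at h2
  rw [show 2 * m + 3 = 2 * (m + 1) + 1 by omega, Nat.factorial_succ (2 * (m + 1)), ← h2, Dn]
  have h3 : (m + 1)! = (m + 1) * m ! := Nat.factorial_succ m
  generalize (2 * (m + 1)).choose (m + 1) = c
  rw [h3]
  ring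

theorem Mn_pos (k : ℕ) : Mn k ≠ 0 := by
  intro h
  have := Mn_mul k
  rw [h, zero_mul] at this
  exact Nat.factorial_ne_zero _ this.symm

theorem Dn_pos (m : ℕ) : Dn (m + 1) ≠ 0 := by
  intro h
  have := Dn_mul m
  rw [h, zero_mul] at this
  have h1 := Nat.factorial_ne_zero (2 * m + 3)
  omega

section gen

variable (p : ℕ) [hp : Fact p.Prime]

theorem val_Mn (k : ℕ) :
    padicValNat p (Mn k) + 4 * padicValNat p k ! = padicValNat p (4 * k)! := by
  have hk := Nat.factorial_ne_zero k
  rw [← Mn_mul k, padicValNat.mul (Mn_pos k) (by positivity),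
    padicValNat.mul (by positivity) (by positivity), padicValNat.mul hk hk]
  ring

theorem val_Dn (m : ℕ) :
    padicValNat p (Dn (m + 1)) + padicValNat p m ! + padicValNat p (m + 1)! =
      padicValNat p 2 + padicValNat p (2 * m + 3)! := by
  have hk := Nat.factorial_ne_zero m
  have hk' := Nat.factorial_ne_zero (m + 1)
  have hk'' := Nat.factorial_ne_zero (2 * m + 3)
  rw [← padicValNat.mul (by norm_num) hk'', ← Dn_mul, padicValNat.mul (Dn_pos m) (by positivity),
    padicValNat.mul hk hk']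
  ring

theorem val_fac_mono {a b : ℕ} (h : a ≤ b) : padicValNat p a ! ≤ padicValNat p b ! := by
  obtain ⟨c, hc⟩ := Nat.factorial_dvd_factorial h
  have hc0 : c ≠ 0 := by
    rintro rfl
    rw [mul_zero] at hc
    exact Nat.factorial_ne_zero b hc
  rw [hc, padicValNat.mul (Nat.factorial_ne_zero a) hc0]
  exact Nat.le_add_right _ _

theorem val_fac_add (a b : ℕ) :
    padicValNat p a ! + padicValNat p b ! ≤ padicValNat p (a + b)! := by
  obtain ⟨c, hc⟩ := Nat.factorial_mul_factorial_dvd_factorial_add a b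
  have hc0 : c ≠ 0 := by
    rintro rfl
    rw [mul_zero] at hc
    exact Nat.factorial_ne_zero _ hc
  have ha := Nat.factorial_ne_zero a
  have hb := Nat.factorial_ne_zero b
  rw [hc, padicValNat.mul (by positivity) hc0, padicValNat.mul ha hb]
  exact Nat.le_add_right _ _

theorem val_fac_div (k r : ℕ) (hr : r < p) :
    padicValNat p (p * k + r)! = padicValNat p k ! + k := by
  rw [padicValNat_factorial_mul_add k hr, padicValNat_factorial_mul]

theorem val_1584 (d e : ℕ) (he : padicValNat p 1584 = e) :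
    padicValNat p (1584 ^ (2 * d)) = 2 * e * d := by
  rw [padicValNat.pow, he]
  ring

/-- divisibility of a term by a power of `p` -/
theorem term_dvd (k d e f : ℕ) (he : padicValNat p 1584 = e)
    (h : f ≤ padicValNat p (Mn k) + 2 * e * d) :
    p ^ f ∣ (280 * k + 19) * Mn k * 1584 ^ (2 * d) := by
  have h0 : (280 * k + 19) * Mn k * 1584 ^ (2 * d) ≠ 0 :=
    mul_ne_zero (mul_ne_zero (by omega) (Mn_pos k)) (by positivity)
  rw [padicValNat_dvd_iff_le h0, padicValNat.mul (mul_ne_zero (by omega) (Mn_pos k))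
    (by positivity), padicValNat.mul (by omega) (Mn_pos k), val_1584 p d e he]
  omega

theorem Sn_succ (m : ℕ) : Sn (m + 1) =
    (∑ k ∈ Finset.range m, (280 * k + 19) * Mn k * 1584 ^ (2 * (m - k))) +
      (280 * m + 19) * Mn m := by
  rw [Sn, Finset.sum_range_succ]
  simp

end gen

/-! ### the prime 2 -/

instance : Fact (Nat.Prime 2) := ⟨Nat.prime_two⟩

theorem val2_fac (k : ℕ) : padicValNat 2 (2 * k)! = padicValNat 2 k ! + k :=
  val_fac_div 2 k 0 (by norm_num)

theorem val2_fac' (k : ℕ) : padicValNat 2 (2 * k + 1)! = padicValNat 2 k ! + k :=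
  val_fac_div 2 k 1 (by norm_num)

theorem val_pow_mul (p : ℕ) [Fact p.Prime] {a b e : ℕ} (hb : b ≠ 0) (h : p ^ e * b = a)
    (hpb : ¬ p ∣ b) : padicValNat p a = e := by
  rw [← h, padicValNat.mul (pow_ne_zero _ (Fact.out (p := p.Prime)).ne_zero) hb,
    padicValNat.prime_pow, padicValNat.eq_zero_of_not_dvd hpb, add_zero]

theorem val2_1584 : padicValNat 2 1584 = 4 :=
  val_pow_mul 2 (b := 99) (by norm_num) (by norm_num) (by norm_num)

theorem val2_Mn (k : ℕ) : padicValNat 2 (Mn k) + 3 * padicValNat 2 k ! = 3 * k := by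
  have h := val_Mn 2 k
  rw [show 4 * k = 2 * (2 * k) by omega, val2_fac, val2_fac] at h
  omega

theorem val2_Dn (m : ℕ) : padicValNat 2 (Dn (m + 1)) + padicValNat 2 m ! = m + 2 := by
  have h := val_Dn 2 m
  rw [show 2 * m + 3 = 2 * (m + 1) + 1 by omega, val2_fac', padicValNat_self] at h
  omega

theorem val2_Sn (m : ℕ) : padicValNat 2 (Sn (m + 1)) + 3 * padicValNat 2 m ! = 3 * m := by
  obtain ⟨v, hv⟩ : ∃ v, v = padicValNat 2 (Mn m) := ⟨_, rfl⟩
  have hM := val2_Mn m
  rw [← hv] at hM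
  have h1 : 2 ^ (v + 1) ∣ ∑ k ∈ Finset.range m, (280 * k + 19) * Mn k * 1584 ^ (2 * (m - k)) := by
    refine Finset.dvd_sum fun k hk => term_dvd 2 k (m - k) 4 _ val2_1584 ?_
    have hk' := Finset.mem_range.1 hk
    have h2 := val2_Mn k
    have h3 := val_fac_mono 2 hk'.le
    omega
  have hlast : padicValNat 2 ((280 * m + 19) * Mn m) = v := by
    rw [padicValNat.mul (by omega) (Mn_pos m), padicValNat.eq_zero_of_not_dvd (by omega), hv,
      zero_add]
  have hl0 : (280 * m + 19) * Mn m ≠ 0 := mul_ne_zero (by omega) (Mn_pos m)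
  have hS0 : Sn (m + 1) ≠ 0 := by
    rw [Sn_succ]
    omega
  have h4 : 2 ^ v ∣ Sn (m + 1) := by
    rw [Sn_succ]
    refine dvd_add ((pow_dvd_pow 2 (Nat.le_succ v)).trans h1) ?_
    rw [padicValNat_dvd_iff_le hl0, hlast]
  have h5 : ¬ 2 ^ (v + 1) ∣ Sn (m + 1) := by
    rw [Sn_succ]
    intro h
    have h6 := (Nat.dvd_add_right h1).1 h
    rw [padicValNat_dvd_iff_le hl0, hlast] at h6
    omega
  rw [padicValNat_dvd_iff_le hS0] at h4 h5
  omega

/-! ### the prime 3 -/

theorem val3_fac0 (k : ℕ) : padicValNat 3 (3 * k)! = padicValNat 3 k ! + k :=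
  val_fac_div 3 k 0 (by norm_num)

theorem val3_fac1 (k : ℕ) : padicValNat 3 (3 * k + 1)! = padicValNat 3 k ! + k :=
  val_fac_div 3 k 1 (by norm_num)

theorem val3_fac2 (k : ℕ) : padicValNat 3 (3 * k + 2)! = padicValNat 3 k ! + k :=
  val_fac_div 3 k 2 (by norm_num)

theorem val3_1584 : padicValNat 3 1584 = 2 :=
  val_pow_mul 3 (b := 176) (by norm_num) (by norm_num) (by norm_num)

/-- `2 v_3(N!) < N` -/
theorem val3_fac_lt (N : ℕ) (hN : 0 < N) : 2 * padicValNat 3 N ! < N := by
  induction N using Nat.strong_induction_on with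
  | _ N ih =>
    obtain ⟨k, r, hr, hk⟩ : ∃ k r, r < 3 ∧ N = 3 * k + r :=
      ⟨N / 3, N % 3, Nat.mod_lt _ (by norm_num), (Nat.div_add_mod N 3).symm⟩
    rw [hk, val_fac_div 3 k r hr]
    rcases Nat.eq_zero_or_pos k with hk0 | hk0
    · subst hk0
      simp
      omega
    · have := ih k (by omega) hk0
      omega

theorem val3_Mn (k : ℕ) : k ≤ padicValNat 3 (Mn k) + 2 * padicValNat 3 k ! := by
  have h := val_Mn 3 k
  have h1 := val_fac_add 3 (3 * k) k
  rw [val3_fac0, show 3 * k + k = 4 * k by omega] at h1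
  omega

theorem val3_Dn (m : ℕ) :
    padicValNat 3 (Dn (m + 1)) + padicValNat 3 m ! + padicValNat 3 (m + 1)! ≤ m + 1 := by
  have h := val_Dn 3 m
  have h2 : padicValNat 3 2 = 0 := padicValNat.eq_zero_of_not_dvd (by norm_num)
  have h3 := val3_fac_lt (2 * m + 3) (by omega)
  omega

/-- `v_3((4M)! / ((M!)^2 (2M+1)!))` in additive form: nonnegative -/
theorem K_nonneg (M : ℕ) :
    2 * padicValNat 3 M ! + padicValNat 3 (2 * M + 1)! ≤ padicValNat 3 (4 * M)! := by
  obtain ⟨k, r, hr, hk⟩ : ∃ k r, r < 3 ∧ M = 3 * k + r :=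
    ⟨M / 3, M % 3, Nat.mod_lt _ (by norm_num), (Nat.div_add_mod M 3).symm⟩
  subst hk
  interval_cases r
  · have h1 := val_fac_add 3 k k
    have h2 := val_fac_add 3 (k + k) (2 * k)
    rw [show 2 * (3 * k + 0) + 1 = 3 * (2 * k) + 1 by omega, val3_fac1,
      show 4 * (3 * k + 0) = 3 * (4 * k) by omega, val3_fac0, add_zero, val3_fac0]
    rw [show k + k + 2 * k = 4 * k by omega] at h2
    omega
  · have h1 := val_fac_add 3 k k
    have h2 := val_fac_add 3 (k + k) (2 * k + 1)
    rw [show 2 * (3 * k + 1) + 1 = 3 * (2 * k + 1) by omega, val3_fac0,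
      show 4 * (3 * k + 1) = 3 * (4 * k + 1) + 1 by omega, val3_fac1, val3_fac1]
    rw [show k + k + (2 * k + 1) = 4 * k + 1 by omega] at h2
    omega
  · have h1 := val_fac_add 3 k k
    have h2 := val_fac_add 3 (k + k) (2 * k + 2)
    have h3 := val_fac_mono 3 (show 2 * k + 1 ≤ 2 * k + 2 by omega)
    rw [show 2 * (3 * k + 2) + 1 = 3 * (2 * k + 1) + 2 by omega, val3_fac2,
      show 4 * (3 * k + 2) = 3 * (4 * k + 2) + 2 by omega, val3_fac2, val3_fac2]
    rw [show k + k + (2 * k + 2) = 4 * k + 2 by omega] at h2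
    omega

/-- `3` divides `C(4M, 2M) C(2M, M)` for `M > 0` -/
theorem H_pos (M : ℕ) (hM : 0 < M) :
    2 * padicValNat 3 M ! + padicValNat 3 (2 * M)! < padicValNat 3 (4 * M)! := by
  induction M using Nat.strong_induction_on with
  | _ M ih =>
    obtain ⟨k, r, hr, hk⟩ : ∃ k r, r < 3 ∧ M = 3 * k + r :=
      ⟨M / 3, M % 3, Nat.mod_lt _ (by norm_num), (Nat.div_add_mod M 3).symm⟩
    subst hk
    interval_cases r
    · have h1 := ih k (by omega) (by omega)
      rw [show 2 * (3 * k + 0) = 3 * (2 * k) by omega, val3_fac0,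
        show 4 * (3 * k + 0) = 3 * (4 * k) by omega, val3_fac0, add_zero, val3_fac0]
      omega
    · have h1 := val_fac_add 3 k k
      have h2 := val_fac_add 3 (k + k) (2 * k + 1)
      have h3 := val_fac_mono 3 (show 2 * k ≤ 2 * k + 1 by omega)
      rw [show 2 * (3 * k + 1) = 3 * (2 * k) + 2 by omega, val3_fac2,
        show 4 * (3 * k + 1) = 3 * (4 * k + 1) + 1 by omega, val3_fac1, val3_fac1]
      rw [show k + k + (2 * k + 1) = 4 * k + 1 by omega] at h2
      omega
    · have h1 := val_fac_add 3 k k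
      have h2 := val_fac_add 3 (k + k) (2 * k + 2)
      have h3 := val_fac_mono 3 (show 2 * k + 1 ≤ 2 * k + 2 by omega)
      rw [show 2 * (3 * k + 2) = 3 * (2 * k + 1) + 1 by omega, val3_fac1,
        show 4 * (3 * k + 2) = 3 * (4 * k + 2) + 2 by omega, val3_fac2, val3_fac2]
      rw [show k + k + (2 * k + 2) = 4 * k + 2 by omega] at h2
      omega

theorem pow3_mod (j : ℕ) (x : ℕ) (h : x = 3 ^ j) : x = 1 ∨ x % 3 = 0 := by
  rcases j with _ | j
  · left
    simpa using h
  · right
    rw [h, pow_succ]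
    omega

theorem K_zero_iff (M : ℕ) :
    2 * padicValNat 3 M ! + padicValNat 3 (2 * M + 1)! = padicValNat 3 (4 * M)! ↔
      ∃ i, 2 * M + 1 = 3 ^ i := by
  induction M using Nat.strong_induction_on with
  | _ M ih =>
    obtain ⟨k, r, hr, hk⟩ : ∃ k r, r < 3 ∧ M = 3 * k + r :=
      ⟨M / 3, M % 3, Nat.mod_lt _ (by norm_num), (Nat.div_add_mod M 3).symm⟩
    subst hk
    interval_cases r
    · rcases Nat.eq_zero_or_pos k with hk0 | hk0
      · subst hk0
        simp only [mul_zero, add_zero, zero_add]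
        exact ⟨fun _ => ⟨0, rfl⟩, fun _ => by simp⟩
      · have h1 := H_pos k hk0
        rw [show 2 * (3 * k + 0) + 1 = 3 * (2 * k) + 1 by omega, val3_fac1,
          show 4 * (3 * k + 0) = 3 * (4 * k) by omega, val3_fac0, add_zero, val3_fac0]
        constructor
        · intro h
          omega
        · rintro ⟨i, hi⟩
          rcases pow3_mod i _ hi with h | h <;> omega
    · have hIH := ih k (by omega)
      have h4 : padicValNat 3 (4 * k + 1)! = padicValNat 3 (4 * k + 1) + padicValNat 3 (4 * k)! := by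
        rw [Nat.factorial_succ, padicValNat.mul (by omega) (Nat.factorial_ne_zero _)]
      have hK := K_nonneg k
      rw [show 2 * (3 * k + 1) + 1 = 3 * (2 * k + 1) by omega, val3_fac0,
        show 4 * (3 * k + 1) = 3 * (4 * k + 1) + 1 by omega, val3_fac1, val3_fac1]
      constructor
      · intro h
        obtain ⟨i, hi⟩ := hIH.1 (by omega)
        exact ⟨i + 1, by rw [pow_succ, ← hi]; ring⟩
      · rintro ⟨i, hi⟩
        rcases i with _ | i
        · simp at hi
        · rw [pow_succ] at hi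
          have hi' : 2 * k + 1 = 3 ^ i := by omega
          have h5 := hIH.2 ⟨i, hi'⟩
          have h6 : padicValNat 3 (4 * k + 1) = 0 := by
            refine padicValNat.eq_zero_of_not_dvd ?_
            rcases pow3_mod i _ hi' with h | h <;> omega
          omega
    · have h1 := val_fac_add 3 k k
      have h2 := val_fac_add 3 (k + k) (2 * k + 2)
      have h3 := val_fac_mono 3 (show 2 * k + 1 ≤ 2 * k + 2 by omega)
      rw [show 2 * (3 * k + 2) + 1 = 3 * (2 * k + 1) + 2 by omega, val3_fac2,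
        show 4 * (3 * k + 2) = 3 * (4 * k + 2) + 2 by omega, val3_fac2, val3_fac2]
      rw [show k + k + (2 * k + 2) = 4 * k + 2 by omega] at h2
      constructor
      · intro h
        omega
      · rintro ⟨i, hi⟩
        rcases pow3_mod i _ hi with h | h <;> omega

end Pool.Agent.Lib.MP_5b47ee_nt
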