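import Pool.Agent.Lib.MP_5b47ee_nt.Val

/-!
The last term at the prime 3, and all terms at the prime 11.
-/

namespace Pool.Agent.Lib.MP_5b47ee_nt

open Nat

/-- the last term at `3`: `v_3(t) - v_3(D) >= -1`, with equality iff `2m+3` is a power of `3` -/
theorem val3_last (m : ℕ) :
    ((¬ ∃ j, 2 * m + 3 = 3 ^ j) →
      padicValNat 3 (Dn (m + 1)) ≤ padicValNat 3 ((280 * m + 19) * Mn m)) ∧
    ((∃ j, 2 * m + 3 = 3 ^ j) →
      padicValNat 3 (Dn (m + 1)) = padicValNat 3 ((280 * m + 19) * Mn m) + 1) := by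
  have hM := val_Mn 3 m
  have hD := val_Dn 3 m
  have h20 : padicValNat 3 2 = 0 := padicValNat.eq_zero_of_not_dvd (by norm_num)
  rw [padicValNat.mul (by omega) (Mn_pos m)]
  obtain ⟨k, r, hr, hk⟩ : ∃ k r, r < 3 ∧ m = 3 * k + r :=
    ⟨m / 3, m % 3, Nat.mod_lt _ (by norm_num), (Nat.div_add_mod m 3).symm⟩
  have h1 := val_fac_add 3 k k
  interval_cases r
  · have hu : padicValNat 3 (280 * m + 19) = 0 := padicValNat.eq_zero_of_not_dvd (by omega)
    have hK := K_nonneg k
    have hK' := K_zero_iff k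
    rw [show 4 * m = 3 * (4 * k) by omega, val3_fac0, show m = 3 * k by omega, val3_fac0] at hM
    rw [show 2 * m + 3 = 3 * (2 * k + 1) by omega, val3_fac0, show m = 3 * k by omega, val3_fac0,
      val3_fac1] at hD
    rw [hu]
    rw [show m = 3 * k by omega]
    constructor
    · intro h
      have h5 : ¬ (2 * padicValNat 3 k ! + padicValNat 3 (2 * k + 1)! = padicValNat 3 (4 * k)!) := by
        rw [hK']
        rintro ⟨i, hi⟩
        exact h ⟨i + 1, by rw [pow_succ, ← hi]; ring⟩
      omega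
    · rintro ⟨j, hj⟩
      have h5 : 2 * padicValNat 3 k ! + padicValNat 3 (2 * k + 1)! = padicValNat 3 (4 * k)! := by
        rw [hK']
        rcases j with _ | j
        · simp at hj
        · refine ⟨j, ?_⟩
          rw [pow_succ] at hj
          omega
      omega
  · have h2 := val_fac_add 3 (k + k) (2 * k + 1)
    rw [show k + k + (2 * k + 1) = 4 * k + 1 by omega] at h2
    rw [show 4 * m = 3 * (4 * k + 1) + 1 by omega, val3_fac1, show m = 3 * k + 1 by omega,
      val3_fac1] at hM
    rw [show 2 * m + 3 = 3 * (2 * k + 1) + 2 by omega, val3_fac2, show m = 3 * k + 1 by omega,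
      val3_fac1, show 3 * k + 1 + 1 = 3 * k + 2 by omega, val3_fac2] at hD
    rw [show m = 3 * k + 1 by omega]
    constructor
    · intro h
      rw [show 3 * k + 1 + 1 = 3 * k + 2 by omega]
      omega
    · rintro ⟨j, hj⟩
      rcases pow3_mod j _ hj with h | h <;> omega
  · have h2 := val_fac_add 3 (k + k) (2 * k + 2)
    have h3 := val_fac_mono 3 (show k ≤ k + 1 by omega)
    rw [show k + k + (2 * k + 2) = 4 * k + 2 by omega] at h2
    rw [show 4 * m = 3 * (4 * k + 2) + 2 by omega, val3_fac2, show m = 3 * k + 2 by omega,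
      val3_fac2] at hM
    rw [show 2 * m + 3 = 3 * (2 * k + 2) + 1 by omega, val3_fac1, show m = 3 * k + 2 by omega,
      val3_fac2, show 3 * k + 2 + 1 = 3 * (k + 1) by omega, val3_fac0] at hD
    rw [show m = 3 * k + 2 by omega]
    constructor
    · intro h
      rw [show 3 * k + 2 + 1 = 3 * (k + 1) by omega]
      omega
    · rintro ⟨j, hj⟩
      rcases pow3_mod j _ hj with h | h <;> omega

/-- the other terms at `3` -/
theorem val3_rest (m : ℕ) :
    3 ^ (padicValNat 3 (Dn (m + 1)) + 2) ∣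
      ∑ k ∈ Finset.range m, (280 * k + 19) * Mn k * 1584 ^ (2 * (m - k)) := by
  refine Finset.dvd_sum fun k hk => term_dvd 3 k (m - k) 2 _ val3_1584 ?_
  have hk' := Finset.mem_range.1 hk
  have h1 := val3_Mn k
  have h2 := val3_Dn m
  have h3 := val_fac_mono 3 hk'.le
  have h4 := val_fac_mono 3 (show k ≤ m + 1 by omega)
  omega

/-! ### the prime 11 -/

instance : Fact (Nat.Prime 11) := ⟨by norm_num⟩

theorem val11_1584 : padicValNat 11 1584 = 1 :=
  val_pow_mul 11 (b := 144) (by norm_num) (by norm_num) (by norm_num)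

/-- one position -/
theorem pos11 (q k d : ℕ) (hq : 2 ≤ q) (m : ℕ) (hm : m = k + d) :
    (2 * m + 3) / q + 4 * (k / q) ≤
      (m + 1) / q + m / q + 4 * k / q + (if q ≤ 4 * d + 5 then 1 else 0) := by
  subst hm
  obtain ⟨a, r, hr, hk⟩ : ∃ a r, r < q ∧ k = q * a + r :=
    ⟨k / q, k % q, Nat.mod_lt _ (by omega), (Nat.div_add_mod k q).symm⟩
  have hq0 : 0 < q := by omega
  have e1 : k / q = a := by
    rw [hk, Nat.mul_add_div hq0, Nat.div_eq_of_lt hr, add_zero]
  have e2 : 4 * k / q = 4 * a + 4 * r / q := by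
    rw [show 4 * k = q * (4 * a) + 4 * r by rw [hk]; ring, Nat.mul_add_div hq0]
  have e3 : (k + d) / q = a + (r + d) / q := by
    rw [show k + d = q * a + (r + d) by rw [hk]; ring, Nat.mul_add_div hq0]
  have e4 : (k + d + 1) / q = a + (r + d + 1) / q := by
    rw [show k + d + 1 = q * a + (r + d + 1) by rw [hk]; ring, Nat.mul_add_div hq0]
  have e5 : (2 * (k + d) + 3) / q = 2 * a + (2 * (r + d) + 3) / q := by
    rw [show 2 * (k + d) + 3 = q * (2 * a) + (2 * (r + d) + 3) by rw [hk]; ring,
      Nat.mul_add_div hq0]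
  rw [e1, e2, e3, e4, e5]
  clear e1 e2 e3 e4 e5 hk
  by_cases hc : q ≤ 4 * d + 5
  · rw [if_pos hc]
    have h1 := Nat.div_add_mod (r + d) q
    have h2 := Nat.mod_lt (r + d) hq0
    have h3 : (r + d + 1) / q = (r + d) / q + ((r + d) % q + 1) / q := by
      nth_rewrite 1 [← h1]
      rw [add_assoc, Nat.mul_add_div hq0]
    have h4 : (2 * (r + d) + 3) / q = 2 * ((r + d) / q) + (2 * ((r + d) % q) + 3) / q := by
      nth_rewrite 1 [← h1]
      rw [show 2 * (q * ((r + d) / q) + (r + d) % q) + 3 =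
        q * (2 * ((r + d) / q)) + (2 * ((r + d) % q) + 3) by ring, Nat.mul_add_div hq0]
    rw [h3, h4]
    have h5 : (2 * ((r + d) % q) + 3) / q ≤ ((r + d) % q + 1) / q + 1 := by
      rcases Nat.lt_or_ge ((r + d) % q + 1) q with h | h
      · have h7 : (2 * ((r + d) % q) + 3) / q < 2 := by
          rw [Nat.div_lt_iff_lt_mul hq0]
          omega
        exact (Nat.lt_succ_iff.1 h7).trans (Nat.le_add_left _ _)
      · have h6 : (r + d) % q + 1 = q := by omega
        rw [h6, Nat.div_self hq0]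
        have h7 : (2 * ((r + d) % q) + 3) / q < 3 := by
          rw [Nat.div_lt_iff_lt_mul hq0]
          omega
        exact Nat.lt_succ_iff.1 h7
    clear h1 h2 h3 h4
    generalize (2 * ((r + d) % q) + 3) / q = x1 at *
    generalize ((r + d) % q + 1) / q = x2 at *
    generalize (r + d) / q = x3 at *
    generalize 4 * r / q = x4 at *
    omega
  · rw [if_neg hc]
    have hc' : 4 * d + 6 ≤ q := by omega
    rcases Nat.lt_or_ge (4 * r) q with h | h
    · have h1 : (2 * (r + d) + 3) / q = 0 := Nat.div_eq_of_lt (by omega)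
      rw [h1]
      generalize (r + d + 1) / q = x2 at *
      generalize (r + d) / q = x3 at *
      generalize 4 * r / q = x4 at *
      omega
    · have h1 : 1 ≤ 4 * r / q := (Nat.one_le_div_iff hq0).2 h
      rcases Nat.lt_or_ge (2 * (r + d) + 3) (2 * q) with h' | h'
      · have h2 : (2 * (r + d) + 3) / q < 2 := by
          rw [Nat.div_lt_iff_lt_mul hq0]
          omega
        generalize (2 * (r + d) + 3) / q = x1 at *
        generalize (r + d + 1) / q = x2 at *
        generalize (r + d) / q = x3 at *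
        generalize 4 * r / q = x4 at *
        omega
      · have h2 : (2 * (r + d) + 3) / q < 3 := by
          rw [Nat.div_lt_iff_lt_mul hq0]
          omega
        have h3 : 3 ≤ 4 * r / q := by
          rw [Nat.le_div_iff_mul_le hq0]
          omega
        generalize (2 * (r + d) + 3) / q = x1 at *
        generalize (r + d + 1) / q = x2 at *
        generalize (r + d) / q = x3 at *
        generalize 4 * r / q = x4 at *
        omega

theorem count11 (b d : ℕ) :
    ((Finset.Ico 1 b).filter fun i => 11 ^ i ≤ 4 * d + 5).card ≤ 2 * d := by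
  have h1 : ((Finset.Ico 1 b).filter fun i => 11 ^ i ≤ 4 * d + 5) ⊆ Finset.Ico 1 (2 * d + 1) := by
    intro i hi
    rw [Finset.mem_filter, Finset.mem_Ico] at hi
    rw [Finset.mem_Ico]
    refine ⟨hi.1.1, ?_⟩
    by_contra hcon
    have h2 : 11 ^ (2 * d + 1) ≤ 11 ^ i := Nat.pow_le_pow_right (by norm_num) (by omega)
    have h3 : 4 * d + 5 < 11 ^ (2 * d + 1) := by
      clear hi hcon h2
      induction d with
      | zero => norm_num
      | succ d ih =>
        rw [show 2 * (d + 1) + 1 = 2 * d + 1 + 2 by omega, pow_add]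
        omega
    omega
  refine (Finset.card_le_card h1).trans ?_
  rw [Nat.card_Ico]
  omega

theorem val11_term (k d m : ℕ) (hm : m = k + d) :
    padicValNat 11 (Dn (m + 1)) ≤ padicValNat 11 (Mn k) + 2 * 1 * d := by
  have hM := val_Mn 11 k
  have hD := val_Dn 11 m
  have h20 : padicValNat 11 2 = 0 := padicValNat.eq_zero_of_not_dvd (by norm_num)
  obtain ⟨b, hb⟩ : ∃ b, b = 4 * m + 5 := ⟨_, rfl⟩
  have hlog : ∀ N, N ≤ 4 * m + 4 → Nat.log 11 N < b := by
    intro N hN
    have := Nat.log_le_self 11 N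
    omega
  rw [padicValNat_factorial (hlog _ (by omega)), padicValNat_factorial (hlog _ (by omega)),
    padicValNat_factorial (hlog _ (by omega))] at hD
  rw [padicValNat_factorial (hlog _ (by omega)), padicValNat_factorial (hlog _ (by omega))] at hM
  have h1 : ∑ i ∈ Finset.Ico 1 b, ((2 * m + 3) / 11 ^ i + 4 * (k / 11 ^ i)) ≤
      ∑ i ∈ Finset.Ico 1 b, ((m + 1) / 11 ^ i + m / 11 ^ i + 4 * k / 11 ^ i +
        (if 11 ^ i ≤ 4 * d + 5 then 1 else 0)) := by
    refine Finset.sum_le_sum fun i hi => pos11 (11 ^ i) k d ?_ m hm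
    have := (Finset.mem_Ico.1 hi).1
    calc 2 ≤ 11 ^ 1 := by norm_num
      _ ≤ 11 ^ i := Nat.pow_le_pow_right (by norm_num) this
  rw [Finset.sum_add_distrib, Finset.sum_add_distrib, Finset.sum_add_distrib,
    Finset.sum_add_distrib, ← Finset.mul_sum, ← Finset.card_filter] at h1
  have h2 := count11 b d
  omega

theorem val11_Sn (m : ℕ) : 11 ^ padicValNat 11 (Dn (m + 1)) ∣ Sn (m + 1) := by
  rw [Sn]
  refine Finset.dvd_sum fun k hk => ?_
  have hk' := Finset.mem_range.1 hk
  rw [show m + 1 - 1 - k = m - k by omega]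
  exact term_dvd 11 k (m - k) 1 _ val11_1584 (val11_term k (m - k) m (by omega))

end Pool.Agent.Lib.MP_5b47ee_nt
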